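import Pool.Agent.Helper335.NSS.Space

/-! # Tangentiality, and the absence of a modular hyperplane -/

namespace Pool.Agent.Helper335.NSS

open Set Module Submodule Pool.Agent.Helper236
open scoped LinearAlgebra.Projectivization

variable {F : Type} [Field F] {r : ℕ}

/-- Every nonempty flat is the zero set of a linear map to `F ^ (r + 1)`. -/
theorem Mat_flats [Finite F] (h2 : (2 : F) ≠ 0) (h3 : (3 : F) ≠ 0) (G : Set (ℙ F (Sp F r)))
    (hG : (Mat F r).IsFlat G) (hGne : G.Nonempty) :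
    ∃ f : Sp F r →ₗ[F] (Fin (r + 1) → F),
      (∀ x ∈ G, f x.rep = 0) ∧ ∀ x ∈ (Mat F r).E, x ∉ G → f x.rep ≠ 0 := by
  classical
  have hfin := Mat_finite (F := F) (r := r)
  have hGE : G ⊆ (Mat F r).E := hG.subset_ground
  set U : Submodule F (Sp F r) := span F ((fun x : ℙ F (Sp F r) => x.rep) '' G) with hU
  have hmem : ∀ x ∈ G, x.rep ∈ U := fun x hx => subset_span (mem_image_of_mem _ hx)
  have hflat : ∀ x ∈ (Mat F r).E, x.rep ∈ U → x ∈ G := by
    intro x hx hxU
    have := (Mat_rep.mem_closure_iff hGE hx).2 hxU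
    rwa [hG.closure] at this
  -- the projection that is injective on the image of the last coordinates
  set L : (Fin r → F) →ₗ[F] (Sp F r ⧸ U) :=
    U.mkQ ∘ₗ LinearMap.inr F (Fin 3 → F) (Fin r → F) with hL
  obtain ⟨ρ, hρ⟩ := LinearMap.exists_leftInverse_of_injective
    (LinearMap.range L).subtype (Submodule.ker_subtype _)
  have hρ' : ∀ y : LinearMap.range L, ρ y = y := fun y => LinearMap.congr_fun hρ y
  set f1 : Sp F r →ₗ[F] LinearMap.range L := ρ ∘ₗ U.mkQ with hf1
  have hf1U : ∀ x ∈ U, f1 x = 0 := by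
    intro x hx
    rw [hf1, LinearMap.comp_apply]
    have : U.mkQ x = 0 := by simpa using hx
    rw [this, map_zero]
  have hdim : finrank F (LinearMap.range L) + finrank F (LinearMap.ker L) = r := by
    rw [LinearMap.finrank_range_add_finrank_ker, Module.finrank_fin_fun]
  have key : ∀ x y : Sp F r, y ∈ U → x.1 = y.1 → f1 x = 0 → x ∈ U := by
    intro x y hy hxy h0
    have h1 : x - y = LinearMap.inr F (Fin 3 → F) (Fin r → F) (x.2 - y.2) := by
      apply Prod.ext
      · show x.1 - y.1 = 0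
        rw [hxy, sub_self]
      · rfl
    have h4 : U.mkQ x = L (x.2 - y.2) := by
      rw [hL, LinearMap.comp_apply, ← h1, map_sub]
      have : U.mkQ y = 0 := by simpa using hy
      rw [this, sub_zero]
    have h5 : U.mkQ x ∈ LinearMap.range L := ⟨_, h4.symm⟩
    have h6 : f1 x = ⟨U.mkQ x, h5⟩ := hρ' ⟨U.mkQ x, h5⟩
    rw [h6] at h0
    have h7 : U.mkQ x = 0 := congrArg Subtype.val h0
    simpa using h7
  by_cases hc : ∃ y ∈ U, C y.1
  · obtain ⟨y, hyU, hy⟩ := hc
    obtain ⟨φ, hφ1, hφ2⟩ := exists_g h2 h3 (U.map (LinearMap.fst F (Fin 3 → F) (Fin r → F)))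
      (c := y.1) ⟨y, hyU, rfl⟩ hy
    have hd : finrank F (LinearMap.range L × F) ≤ finrank F (Fin (r + 1) → F) := by
      rw [Module.finrank_prod, Module.finrank_self, Module.finrank_fin_fun]
      omega
    obtain ⟨ι, hι⟩ := finrank_le_iff_exists_linearMap.1 hd
    have hz : ∀ x : Sp F r, (ι ∘ₗ (f1.prod (φ ∘ₗ LinearMap.fst F _ _))) x = 0 ↔
        f1 x = 0 ∧ φ x.1 = 0 := by
      intro x
      rw [LinearMap.comp_apply, map_eq_zero_iff _ hι, Prod.ext_iff]
      rfl
    refine ⟨ι ∘ₗ (f1.prod (φ ∘ₗ LinearMap.fst F _ _)), ?_, ?_⟩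
    · intro x hx
      rw [hz]
      exact ⟨hf1U _ (hmem x hx), hφ1 _ ⟨x.rep, hmem x hx, rfl⟩⟩
    · intro x hx hxG h0
      rw [hz] at h0
      apply hxG
      apply hflat x hx
      rcases hx with hx | ⟨hx1, hx2⟩
      · obtain ⟨z, hz1, hz2⟩ := hφ2 _ hx h0.2
        exact key _ z hz1 hz2.symm h0.1
      · exact key _ 0 U.zero_mem hx1 h0.1
  · push Not at hc
    obtain ⟨e, he⟩ := hGne
    have he1 : e.rep.1 = 0 := by
      rcases hGE he with h | h
      · exact absurd h (hc _ (hmem e he))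
      · exact h.1
    have he2 : e.rep.2 ≠ 0 := by
      rcases hGE he with h | h
      · exact absurd h (hc _ (hmem e he))
      · exact h.2
    have hker : 1 ≤ finrank F (LinearMap.ker L) := by
      rw [Nat.one_le_iff_ne_zero]
      intro h0
      have h1 := Submodule.finrank_eq_zero.1 h0
      apply he2
      have h4 : e.rep.2 ∈ LinearMap.ker L := by
        rw [LinearMap.mem_ker, hL, LinearMap.comp_apply]
        have h5 : LinearMap.inr F (Fin 3 → F) (Fin r → F) e.rep.2 = e.rep := by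
          apply Prod.ext
          · exact he1.symm
          · rfl
        rw [h5]
        simpa using hmem e he
      rw [h1] at h4
      simpa using h4
    have hd : finrank F (LinearMap.range L × (F × F)) ≤ finrank F (Fin (r + 1) → F) := by
      rw [Module.finrank_prod, Module.finrank_prod, Module.finrank_self, Module.finrank_fin_fun]
      omega
    obtain ⟨ι, hι⟩ := finrank_le_iff_exists_linearMap.1 hd
    have hz : ∀ x : Sp F r, (ι ∘ₗ (f1.prod (((ev3L 0 1 2) ∘ₗ LinearMap.fst F _ _).prod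
        ((LinearMap.proj 0) ∘ₗ LinearMap.fst F (Fin 3 → F) (Fin r → F))))) x = 0 ↔
        f1 x = 0 ∧ ev3 0 1 2 x.1 = 0 ∧ x.1 0 = 0 := by
      intro x
      rw [LinearMap.comp_apply, map_eq_zero_iff _ hι, Prod.ext_iff, Prod.ext_iff]
      rfl
    refine ⟨_, fun x hx => (hz _).2 ?_, fun x hx hxG h0 => ?_⟩
    · have hx1 : x.rep.1 = 0 := by
        rcases hGE hx with h | h
        · exact absurd h (hc _ (hmem x hx))
        · exact h.1
      refine ⟨hf1U _ (hmem x hx), ?_, ?_⟩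
      · rw [hx1]
        simp [ev3]
      · rw [hx1]
        rfl
    · rw [hz] at h0
      apply hxG
      apply hflat x hx
      rcases hx with hx | ⟨hx1, hx2⟩
      · exact absurd (two_functionals h2 hx h0.2.2 h0.2.1) not_false
      · exact key _ 0 U.zero_mem hx1 h0.1

theorem not_C_210 : ¬ C (![2, 1, 0] : Fin 3 → F) := by
  rintro (⟨h, -, -⟩ | ⟨-, -, h, -⟩ | ⟨h, -, -, -⟩ | ⟨h, -, -⟩)
  · simp at h
  · simp at h
  · simp at h
  · simp at h

/-- for every nonzero functional there are two normalised vectors in `X` whose difference is not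
in `X` -/
theorem nomod (h2 : (2 : F) ≠ 0) (h3 : (3 : F) ≠ 0) (φ : Sp F r →ₗ[F] F) (hφ : φ ≠ 0) :
    ∃ x y, X x ∧ X y ∧ φ x = 1 ∧ φ y = 1 ∧ x ≠ y ∧ ¬ X (x - y) := by
  have hsum : ∀ x : Sp F r, φ x = φ (x.1, 0) + φ (0, x.2) := by
    intro x
    rw [← map_add, Prod.mk_add_mk, add_zero, zero_add]
  by_cases hβ : ∃ s : Fin r → F, φ (0, s) ≠ 0
  · obtain ⟨s, hs⟩ := hβ
    have hval : ∀ (u : Fin 3 → F),
        φ (u, ((1 - φ (u, 0)) * (φ (0, s))⁻¹) • s) = 1 := by
      intro u
      rw [hsum]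
      show φ (u, 0) + φ (0, ((1 - φ (u, 0)) * (φ (0, s))⁻¹) • s) = 1
      have h5 : ((0, ((1 - φ (u, 0)) * (φ (0, s))⁻¹) • s) : Sp F r) =
          ((1 - φ (u, 0)) * (φ (0, s))⁻¹) • ((0, s) : Sp F r) := by
        rw [Prod.smul_mk, smul_zero]
      rw [h5, map_smul, smul_eq_mul, mul_assoc, inv_mul_cancel₀ hs]
      ring
    have hdiff : (![0, 1, 0] : Fin 3 → F) - ![-2, 0, 0] = ![2, 1, 0] := by
      ext i
      fin_cases i <;> simp
    refine ⟨(![0, 1, 0], ((1 - φ (![0, 1, 0], 0)) * (φ (0, s))⁻¹) • s),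
      (![-2, 0, 0], ((1 - φ (![-2, 0, 0], 0)) * (φ (0, s))⁻¹) • s), ?_, ?_, hval _, hval _,
      ?_, ?_⟩
    · left
      right; left
      simp [h2.symm, h3.symm]
    · left
      left
      simp [h2]
    · intro h
      have h5 := congrFun (Prod.ext_iff.1 h).1 1
      simp at h5
    · rintro (h | ⟨h, -⟩)
      · have h' : C ((![0, 1, 0] : Fin 3 → F) - ![-2, 0, 0]) := h
        rw [hdiff] at h'
        exact not_C_210 h'
      · have h' : (![0, 1, 0] : Fin 3 → F) - ![-2, 0, 0] = 0 := h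
        rw [hdiff] at h'
        have := congrFun h' 1
        simp at this
  · push Not at hβ
    have hval : ∀ x : Sp F r, φ x = ev3 (φ (Pi.single 0 1, 0)) (φ (Pi.single 1 1, 0))
        (φ (Pi.single 2 1, 0)) x.1 := by
      intro x
      rw [hsum, hβ, add_zero]
      exact eq_ev3 (φ ∘ₗ LinearMap.inl F (Fin 3 → F) (Fin r → F)) x.1
    have habc : ¬ (φ (Pi.single 0 1, 0) = 0 ∧ φ (Pi.single 1 1, 0) = 0 ∧
        φ (Pi.single 2 1, 0) = 0) := by
      rintro ⟨ha, hb, hc⟩
      apply hφ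
      apply LinearMap.ext
      intro x
      rw [hval x, ha, hb, hc]
      simp [ev3]
    obtain ⟨u, w, hu, hw, hu1, hw1, huw, hnC⟩ := nomod3 h2 h3 habc
    refine ⟨(u, 0), (w, 0), Or.inl hu, Or.inl hw, ?_, ?_, ?_, ?_⟩
    · rw [hval]
      exact hu1
    · rw [hval]
      exact hw1
    · intro h
      exact huw (Prod.ext_iff.1 h).1
    · rintro (h | ⟨-, h⟩)
      · exact hnC h
      · apply h
        show (0 : Fin r → F) - 0 = 0
        rw [sub_self]

theorem Mat_not_modular [Finite F] (h2 : (2 : F) ≠ 0) (h3 : (3 : F) ≠ 0) :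
    ¬ ∃ H, IsModularHyperplane (Mat F r) H := by
  have := Mat_finite (F := F) (r := r)
  rintro ⟨H, hH⟩
  obtain ⟨φ, hφ0, hφ1⟩ := exists_functional Mat_rep hH.1.1 hH.2
  have hHE : H ⊆ (Mat F r).E := hH.1.1.subset_ground
  have hne : ∃ i ∈ (Mat F r).E, i ∉ H := by
    by_contra hcon
    push Not at hcon
    have h1 : H = (Mat F r).E := Subset.antisymm hHE (fun x hx => hcon x hx)
    have h4 := hH.2
    rw [h1] at h4
    omega
  obtain ⟨i₀, hi₀E, hi₀⟩ := hne
  have hφ : φ ≠ 0 := by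
    rintro rfl
    exact hφ1 _ hi₀E hi₀ rfl
  obtain ⟨x, y, hx, hy, hx1, hy1, hxy, hnX⟩ := nomod h2 h3 φ hφ
  obtain ⟨e, he, a, ha, hxe⟩ := exists_pt hx
  obtain ⟨f, hf, b, hb, hyf⟩ := exists_pt hy
  have hφe : a * φ e.rep = 1 := by
    rw [hxe, map_smul, smul_eq_mul] at hx1
    exact hx1
  have hφf : b * φ f.rep = 1 := by
    rw [hyf, map_smul, smul_eq_mul] at hy1
    exact hy1
  have hφe0 : φ e.rep ≠ 0 := by
    intro h
    rw [h, mul_zero] at hφe
    exact zero_ne_one hφe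
  have hφf0 : φ f.rep ≠ 0 := by
    intro h
    rw [h, mul_zero] at hφf
    exact zero_ne_one hφf
  have hea : (φ e.rep)⁻¹ = a := by
    rw [inv_eq_iff_eq_inv, ← mul_one a⁻¹, eq_inv_mul_iff_mul_eq₀ ha]
    exact hφe
  have hfb : (φ f.rep)⁻¹ = b := by
    rw [inv_eq_iff_eq_inv, ← mul_one b⁻¹, eq_inv_mul_iff_mul_eq₀ hb]
    exact hφf
  have heH : e ∉ H := fun h => hφe0 (hφ0 e h)
  have hfH : f ∉ H := fun h => hφf0 (hφ0 f h)
  have hef : e ≠ f := by
    rintro rfl
    apply hxy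
    rw [hxe, hyf, ← hea, ← hfb]
  obtain ⟨z, hz, c, hc, hzc⟩ := modular_diff Mat_rep Mat_simple hH hφ0 hφ1 he heH hf hfH hef
  rw [hea, hfb, ← hxe, ← hyf] at hzc
  apply hnX
  rw [hzc]
  exact X_smul hc (hHE hz)

/-- The matroid has full rank. -/
theorem Mat_rank [Finite F] (h2 : (2 : F) ≠ 0) (h3 : (3 : F) ≠ 0) :
    rk (Mat F r) (Mat F r).E = r + 3 := by
  have := Mat_finite (F := F) (r := r)
  rw [Mat_rep.rk_eq Subset.rfl]
  have htop : span F ((fun x : ℙ F (Sp F r) => x.rep) '' (Mat F r).E) = ⊤ := by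
    have hX : ∀ x : Sp F r, X x →
        x ∈ span F ((fun x : ℙ F (Sp F r) => x.rep) '' (Mat F r).E) := by
      intro x hx
      obtain ⟨e, he, c, hc, hxe⟩ := exists_pt hx
      rw [hxe]
      exact smul_mem _ _ (subset_span (mem_image_of_mem _ he))
    rw [eq_top_iff]
    intro x _
    have hdec : x = x.1 0 • ((![1, 0, 0], 0) : Sp F r) + x.1 1 • ((![0, 1, 0], 0) : Sp F r) +
        x.1 2 • ((![0, 0, 1], 0) : Sp F r) + (0, x.2) := by
      apply Prod.ext
      · ext i
        fin_cases i <;> simp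
      · simp
    rw [hdec]
    refine add_mem (add_mem (add_mem (smul_mem _ _ (hX _ ?_)) (smul_mem _ _ (hX _ ?_)))
      (smul_mem _ _ (hX _ ?_))) ?_
    · left
      left
      simp
    · left
      right; left
      simp [h2.symm, h3.symm]
    · left
      right; right; left
      simp [h2.symm, h3.symm]
    · by_cases h0 : x.2 = 0
      · rw [h0]
        exact zero_mem _
      · exact hX _ (Or.inr ⟨rfl, h0⟩)
  rw [htop, finrank_top, Module.finrank_prod, Module.finrank_fin_fun, Module.finrank_fin_fun]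
  omega

end Pool.Agent.Helper335.NSS
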