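import Pool.Agent.Helper236.Tang

/-! # The cone `C` of directions of a set of `q + 1` points of the affine space -/

namespace Pool.Agent.Helper335.NSS

open Set Module Submodule Pool.Agent.Helper236

variable {F : Type} [Field F]

/-- The nonzero vectors whose directions are `(1,0,0)`, `(t,1,0)` and `(t,0,1)` with `t ≠ 2, 3`,
and `(t,-1,1)` with `t = -1, 0, 1`. -/
def C (u : Fin 3 → F) : Prop :=
  (u 1 = 0 ∧ u 2 = 0 ∧ u 0 ≠ 0) ∨
  (u 2 = 0 ∧ u 1 ≠ 0 ∧ u 0 ≠ 2 * u 1 ∧ u 0 ≠ 3 * u 1) ∨
  (u 1 = 0 ∧ u 2 ≠ 0 ∧ u 0 ≠ 2 * u 2 ∧ u 0 ≠ 3 * u 2) ∨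
  (u 2 ≠ 0 ∧ u 1 = -u 2 ∧ (u 0 = 0 ∨ u 0 = u 2 ∨ u 0 = -u 2))

theorem C_ne_zero {u : Fin 3 → F} (h : C u) : u ≠ 0 := by
  rintro rfl
  rcases h with ⟨_, _, h⟩ | ⟨_, h, _⟩ | ⟨_, h, _⟩ | ⟨h, _⟩ <;> exact h rfl

theorem C_smul {u : Fin 3 → F} {c : F} (hc : c ≠ 0) (h : C u) : C (c • u) := by
  have key : ∀ a b : F, a ≠ b → c * a ≠ c * b := fun a b hab h' => hab (mul_left_cancel₀ hc h')
  simp only [C, Pi.smul_apply, smul_eq_mul]
  rcases h with ⟨h1, h2, h3⟩ | ⟨h1, h2, h3, h4⟩ | ⟨h1, h2, h3, h4⟩ | ⟨h1, h2, h3⟩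
  · left
    exact ⟨by rw [h1, mul_zero], by rw [h2, mul_zero], mul_ne_zero hc h3⟩
  · right; left
    refine ⟨by rw [h1, mul_zero], mul_ne_zero hc h2, ?_, ?_⟩
    · have := key _ _ h3
      intro h'
      apply this
      rw [h']
      ring
    · have := key _ _ h4
      intro h'
      apply this
      rw [h']
      ring
  · right; right; left
    refine ⟨by rw [h1, mul_zero], mul_ne_zero hc h2, ?_, ?_⟩
    · have := key _ _ h3
      intro h'
      apply this
      rw [h']
      ring
    · have := key _ _ h4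
      intro h'
      apply this
      rw [h']
      ring
  · right; right; right
    refine ⟨mul_ne_zero hc h1, by rw [h2]; ring, ?_⟩
    rcases h3 with h3 | h3 | h3
    · left
      rw [h3, mul_zero]
    · right; left
      rw [h3]
    · right; right
      rw [h3]
      ring

theorem C_smul_iff {u : Fin 3 → F} {c : F} (hc : c ≠ 0) : C (c • u) ↔ C u := by
  refine ⟨fun h => ?_, C_smul hc⟩
  have := C_smul (inv_ne_zero hc) h
  rwa [smul_smul, inv_mul_cancel₀ hc, one_smul] at this

/-- the first `q` points -/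
noncomputable def bpt (i : F) : Fin 3 → F := by
  classical
  exact if i = -1 then ![0, 1, 0] else if i = -2 then ![1, 1, 0]
    else if i = -3 then ![0, 0, 1] else ![i, 0, 0]

/-- the last point -/
def apt : Fin 3 → F := ![1, 0, 1]

theorem bpt_cases (h2 : (2 : F) ≠ 0) (_h3 : (3 : F) ≠ 0) (i : F) :
    (i = -1 ∧ bpt i = ![0, 1, 0]) ∨ (i = -2 ∧ bpt i = ![1, 1, 0]) ∨
    (i = -3 ∧ bpt i = ![0, 0, 1]) ∨
    (i ≠ -1 ∧ i ≠ -2 ∧ i ≠ -3 ∧ bpt i = ![i, 0, 0]) := by
  classical
  have e12 : (-2 : F) ≠ -1 := by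
    intro h
    apply one_ne_zero (α := F)
    linear_combination -h
  have e13 : (-3 : F) ≠ -1 := by
    intro h
    apply h2
    linear_combination -h
  have e23 : (-3 : F) ≠ -2 := by
    intro h
    apply one_ne_zero (α := F)
    linear_combination -h
  by_cases h1 : i = -1
  · left
    exact ⟨h1, by simp [bpt, h1]⟩
  by_cases h2' : i = -2
  · right; left
    refine ⟨h2', ?_⟩
    rw [bpt, if_neg h1, if_pos h2']
  by_cases h3' : i = -3
  · right; right; left
    refine ⟨h3', ?_⟩
    rw [bpt, if_neg h1, if_neg h2', if_pos h3']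
  · right; right; right
    refine ⟨h1, h2', h3', ?_⟩
    rw [bpt, if_neg h1, if_neg h2', if_neg h3']

theorem bpt_m1 : bpt (-1 : F) = ![0, 1, 0] := by
  classical
  rw [bpt, if_pos rfl]

theorem bpt_m2 : bpt (-2 : F) = ![1, 1, 0] := by
  classical
  have e12 : (-2 : F) ≠ -1 := by
    intro h
    apply one_ne_zero (α := F)
    linear_combination -h
  rw [bpt, if_neg e12, if_pos rfl]

theorem bpt_m3 (h2 : (2 : F) ≠ 0) : bpt (-3 : F) = ![0, 0, 1] := by
  classical
  have e13 : (-3 : F) ≠ -1 := by
    intro h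
    apply h2
    linear_combination -h
  have e23 : (-3 : F) ≠ -2 := by
    intro h
    apply one_ne_zero (α := F)
    linear_combination -h
  rw [bpt, if_neg e13, if_neg e23, if_pos rfl]

theorem bpt_gen {i : F} (h1 : i ≠ -1) (h2 : i ≠ -2) (h3 : i ≠ -3) : bpt i = ![i, 0, 0] := by
  classical
  rw [bpt, if_neg h1, if_neg h2, if_neg h3]

/-- all differences of the `q + 1` points lie in `C` -/
theorem C_bpt_sub (h2 : (2 : F) ≠ 0) (h3 : (3 : F) ≠ 0) {i j : F} (hij : i ≠ j) :
    C (bpt i - bpt j) := by
  rcases bpt_cases h2 h3 i with ⟨hi, ei⟩ | ⟨hi, ei⟩ | ⟨hi, ei⟩ | ⟨hi1, hi2, hi3, ei⟩ <;>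
    rcases bpt_cases h2 h3 j with ⟨hj, ej⟩ | ⟨hj, ej⟩ | ⟨hj, ej⟩ | ⟨hj1, hj2, hj3, ej⟩ <;>
    rw [ei, ej]
  · exact absurd (hi.trans hj.symm) hij
  · left
    simp
  · right; right; right
    simp
  · right; left
    simp
    refine ⟨fun h => hj2 ?_, fun h => hj3 ?_⟩
    · linear_combination -h
    · linear_combination -h
  · left
    simp
  · exact absurd (hi.trans hj.symm) hij
  · right; right; right
    simp
  · right; left
    simp
    refine ⟨fun h => hj1 ?_, fun h => hj2 ?_⟩
    · linear_combination -h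
    · linear_combination -h
  · right; right; right
    simp
  · right; right; right
    simp
  · exact absurd (hi.trans hj.symm) hij
  · right; right; left
    simp
    refine ⟨fun h => hj2 ?_, fun h => hj3 ?_⟩
    · linear_combination -h
    · linear_combination -h
  · right; left
    simp
    refine ⟨fun h => hi2 ?_, fun h => hi3 ?_⟩
    · linear_combination h
    · linear_combination h
  · right; left
    simp
    refine ⟨fun h => hi1 ?_, fun h => hi2 ?_⟩
    · linear_combination h
    · linear_combination h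
  · right; right; left
    simp
    refine ⟨fun h => hi2 ?_, fun h => hi3 ?_⟩
    · linear_combination h
    · linear_combination h
  · left
    simp
    exact sub_ne_zero.2 hij

theorem C_bpt_sub_apt (h2 : (2 : F) ≠ 0) (h3 : (3 : F) ≠ 0) (i : F) : C (bpt i - apt) := by
  rcases bpt_cases h2 h3 i with ⟨hi, ei⟩ | ⟨hi, ei⟩ | ⟨hi, ei⟩ | ⟨hi1, hi2, hi3, ei⟩ <;>
    rw [ei, apt]
  · right; right; right
    simp
  · right; right; right
    simp
  · left
    simp
  · right; right; left
    simp
    refine ⟨fun h => hi1 ?_, fun h => hi2 ?_⟩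
    · linear_combination h
    · linear_combination h

/-- every element of `C` is proportional to a difference -/
theorem C_surj (h2 : (2 : F) ≠ 0) (h3 : (3 : F) ≠ 0) {u : Fin 3 → F} (hu : C u) :
    ∃ c : F, c ≠ 0 ∧ ((∃ i j, i ≠ j ∧ u = c • (bpt i - bpt j)) ∨
      ∃ i, u = c • (bpt i - apt)) := by
  have e12 : (-1 : F) ≠ -2 := by
    intro h
    apply one_ne_zero (α := F)
    linear_combination h
  have e13 : (-1 : F) ≠ -3 := by
    intro h
    apply h2
    linear_combination h
  have e23 : (-2 : F) ≠ -3 := by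
    intro h
    apply one_ne_zero (α := F)
    linear_combination h
  rcases hu with ⟨h1, h2', h3'⟩ | ⟨h1, h2', h3', h4⟩ | ⟨h1, h2', h3', h4⟩ | ⟨h1, h2', h3'⟩
  · refine ⟨u 0, h3', Or.inl ⟨-2, -1, e12.symm, ?_⟩⟩
    rw [bpt_m1, bpt_m2]
    ext i
    fin_cases i <;> simp [h1, h2']
  · by_cases h5 : u 0 = u 1
    · -- use the point `(1,1,0)` and `0`
      refine ⟨u 1, h2', Or.inl ⟨-2, 0, ?_, ?_⟩⟩
      · exact fun h => h2 (by linear_combination -h)
      rw [bpt_m2, bpt_gen (i := (0 : F)) (fun h => one_ne_zero (α := F) (by linear_combination h))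
        (fun h => h2 (by linear_combination h)) (fun h => h3 (by linear_combination h))]
      ext i
      fin_cases i <;> simp [h1, h5]
    · refine ⟨u 1, h2', Or.inl ⟨-1, -(u 0 / u 1), ?_, ?_⟩⟩
      · intro h
        apply h5
        have : u 0 / u 1 = 1 := by linear_combination h
        rwa [div_eq_one_iff_eq h2'] at this
      · rw [bpt_m1, bpt_gen]
        · ext i
          fin_cases i
          · simp
            field_simp
          · simp
          · simp [h1]
        · intro h
          apply h5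
          have : u 0 / u 1 = 1 := by linear_combination -h
          rwa [div_eq_one_iff_eq h2'] at this
        · intro h
          apply h3'
          have : u 0 / u 1 = 2 := by linear_combination -h
          rwa [div_eq_iff h2'] at this
        · intro h
          apply h4
          have : u 0 / u 1 = 3 := by linear_combination -h
          rwa [div_eq_iff h2'] at this
  · by_cases h5 : u 0 = u 2
    · -- use the point `(1,0,1)` and `0`
      refine ⟨-u 2, neg_ne_zero.2 h2', Or.inr ⟨0, ?_⟩⟩
      rw [apt, bpt_gen (i := (0 : F)) (fun h => one_ne_zero (α := F) (by linear_combination h))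
        (fun h => h2 (by linear_combination h)) (fun h => h3 (by linear_combination h))]
      ext i
      fin_cases i <;> simp [h1, h5]
    · refine ⟨u 2, h2', Or.inl ⟨-3, -(u 0 / u 2), ?_, ?_⟩⟩
      · intro h
        apply h4
        have : u 0 / u 2 = 3 := by linear_combination h
        rwa [div_eq_iff h2'] at this
      · rw [bpt_m3 h2, bpt_gen]
        · ext i
          fin_cases i
          · simp
            field_simp
          · simp [h1]
          · simp
        · intro h
          apply h5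
          have : u 0 / u 2 = 1 := by linear_combination -h
          rwa [div_eq_one_iff_eq h2'] at this
        · intro h
          apply h3'
          have : u 0 / u 2 = 2 := by linear_combination -h
          rwa [div_eq_iff h2'] at this
        · intro h
          apply h4
          have : u 0 / u 2 = 3 := by linear_combination -h
          rwa [div_eq_iff h2'] at this
  · rcases h3' with h5 | h5 | h5
    · refine ⟨u 2, h1, Or.inl ⟨-3, -1, e13.symm, ?_⟩⟩
      rw [bpt_m1, bpt_m3 h2]
      ext i
      fin_cases i <;> simp [h2', h5]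
    · refine ⟨-u 2, neg_ne_zero.2 h1, Or.inr ⟨-1, ?_⟩⟩
      rw [bpt_m1, apt]
      ext i
      fin_cases i <;> simp [h2', h5]
    · refine ⟨u 2, h1, Or.inl ⟨-3, -2, e23.symm, ?_⟩⟩
      rw [bpt_m2, bpt_m3 h2]
      ext i
      fin_cases i <;> simp [h2', h5]

end Pool.Agent.Helper335.NSS
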