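import Pool.Agent.Helper335.NSS.Tangent

/-! # The matroid of the directions of `q ^ (r + 1) + 1` points of the affine space of
dimension `r + 3` -/

namespace Pool.Agent.Helper335.NSS

open Set Module Submodule Pool.Agent.Helper236
open scoped LinearAlgebra.Projectivization

variable {F : Type} [Field F] {r : ℕ}

/-- the ambient space -/
abbrev Sp (F : Type) (r : ℕ) : Type := (Fin 3 → F) × (Fin r → F)

/-- the set of directions -/
def X (x : Sp F r) : Prop := C x.1 ∨ (x.1 = 0 ∧ x.2 ≠ 0)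

theorem X_ne_zero {x : Sp F r} (h : X x) : x ≠ 0 := by
  rintro rfl
  rcases h with h | h
  · exact C_ne_zero h rfl
  · exact h.2 rfl

theorem X_smul {x : Sp F r} {c : F} (hc : c ≠ 0) (h : X x) : X (c • x) := by
  rcases h with h | ⟨h1, h2⟩
  · exact Or.inl (C_smul hc h)
  · refine Or.inr ⟨?_, ?_⟩
    · rw [Prod.smul_fst, h1, smul_zero]
    · rw [Prod.smul_snd]
      exact smul_ne_zero hc h2

/-- The matroid -/
noncomputable def Mat (F : Type) [Field F] [Finite F] (r : ℕ) : Matroid (ℙ F (Sp F r)) :=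
  linMatroid F (fun x => x.rep) {x | X x.rep} (Set.toFinite _)

theorem Mat_E [Finite F] : (Mat F r).E = {x | X x.rep} := rfl

theorem Mat_finite [Finite F] : (Mat F r).Finite := ⟨Set.toFinite _⟩

theorem Mat_rep [Finite F] : Rep F (Mat F r) (fun x => x.rep) := linMatroid_rep _ _ _

theorem Mat_simple [Finite F] : IsSimple (Mat F r) := by
  intro e he f hf
  rw [Mat_rep _ (by
    intro x hx
    rcases hx with rfl | rfl <;> assumption)]
  by_cases hef : e = f
  · subst hef
    simpa using e.rep_nonzero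
  · rw [linearIndepOn_pair_iff _ hef e.rep_nonzero]
    intro c hc
    apply hef
    rw [← e.mk_rep, ← f.mk_rep, Eq.comm, Projectivization.mk_eq_mk_iff']
    exact ⟨c, hc⟩

theorem exists_pt {x : Sp F r} (hx : X x) :
    ∃ e : ℙ F (Sp F r), X e.rep ∧ ∃ c : F, c ≠ 0 ∧ x = c • e.rep := by
  obtain ⟨a, ha⟩ := Projectivization.exists_smul_eq_mk_rep F x (X_ne_zero hx)
  refine ⟨Projectivization.mk F x (X_ne_zero hx), ?_, (a : F)⁻¹, inv_ne_zero a.ne_zero, ?_⟩
  · rw [← ha, Units.smul_def]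
    exact X_smul a.ne_zero hx
  · rw [← ha, Units.smul_def, smul_smul, inv_mul_cancel₀ a.ne_zero, one_smul]

/-- the `q ^ (r + 1) + 1` points -/
noncomputable def pts : Option (F × (Fin r → F)) → Sp F r
  | none => (apt, 0)
  | some p => (bpt p.1, p.2)

theorem X_pts (h2 : (2 : F) ≠ 0) (h3 : (3 : F) ≠ 0) {i j : Option (F × (Fin r → F))}
    (hij : i ≠ j) : X (pts i - pts j) := by
  rcases i with _ | p <;> rcases j with _ | p'
  · exact absurd rfl hij
  · left
    have h := C_smul (neg_ne_zero.2 (one_ne_zero (α := F))) (C_bpt_sub_apt h2 h3 p'.1)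
    rw [neg_smul, one_smul, neg_sub] at h
    exact h
  · left
    exact C_bpt_sub_apt h2 h3 p.1
  · by_cases h1 : p.1 = p'.1
    · right
      refine ⟨?_, ?_⟩
      · show bpt p.1 - bpt p'.1 = 0
        rw [h1, sub_self]
      · show p.2 - p'.2 ≠ 0
        intro h
        apply hij
        congr 1
        exact Prod.ext h1 (sub_eq_zero.1 h)
    · left
      exact C_bpt_sub h2 h3 h1

theorem pts_surj (h2 : (2 : F) ≠ 0) (h3 : (3 : F) ≠ 0) {x : Sp F r} (hx : X x) :
    ∃ i j : Option (F × (Fin r → F)), i ≠ j ∧ ∃ c : F, pts i - pts j = c • x := by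
  rcases hx with hx | ⟨hx1, hx2⟩
  · obtain ⟨c, hc, ⟨i, j, hij, hu⟩ | ⟨i, hu⟩⟩ := C_surj h2 h3 hx
    · refine ⟨some (i, c⁻¹ • x.2), some (j, 0), ?_, c⁻¹, ?_⟩
      · intro h
        rw [Option.some_inj, Prod.ext_iff] at h
        exact hij h.1
      · apply Prod.ext
        · show bpt i - bpt j = c⁻¹ • x.1
          rw [hu, smul_smul, inv_mul_cancel₀ hc, one_smul]
        · show c⁻¹ • x.2 - 0 = c⁻¹ • x.2
          rw [sub_zero]
    · refine ⟨some (i, c⁻¹ • x.2), none, by simp, c⁻¹, ?_⟩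
      apply Prod.ext
      · show bpt i - apt = c⁻¹ • x.1
        rw [hu, smul_smul, inv_mul_cancel₀ hc, one_smul]
      · show c⁻¹ • x.2 - 0 = c⁻¹ • x.2
        rw [sub_zero]
  · refine ⟨some (0, x.2), some (0, 0), ?_, 1, ?_⟩
    · intro h
      rw [Option.some_inj, Prod.ext_iff] at h
      exact hx2 h.2
    · rw [one_smul]
      apply Prod.ext
      · show bpt 0 - bpt 0 = x.1
        rw [hx1, sub_self]
      · show x.2 - 0 = x.2
        rw [sub_zero]

theorem card_opt (F : Type) [Finite F] (r : ℕ) :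
    Nat.card (Option (F × (Fin r → F))) = Nat.card F ^ (r + 1) + 1 := by
  rw [Finite.card_option, Nat.card_prod, Nat.card_fun, Nat.card_fin, pow_succ, mul_comm]

theorem Mat_block [Finite F] (h2 : (2 : F) ≠ 0) (h3 : (3 : F) ≠ 0)
    (f : Sp F r →ₗ[F] (Fin (r + 1) → F)) : ∃ e ∈ (Mat F r).E, f e.rep = 0 := by
  have : ∃ i j : Option (F × (Fin r → F)), i ≠ j ∧ f (pts i) = f (pts j) := by
    by_contra hno
    push Not at hno
    have hinj : Function.Injective (fun i => f (pts (F := F) (r := r) i)) := by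
      intro i j hij
      by_contra hne
      exact hno i j hne hij
    have h1 := Nat.card_le_card_of_injective _ hinj
    rw [card_opt, Nat.card_fun, Nat.card_fin] at h1
    omega
  obtain ⟨i, j, hij, hf⟩ := this
  obtain ⟨e, he, c, hc, hec⟩ := exists_pt (X_pts h2 h3 hij)
  refine ⟨e, he, ?_⟩
  have h0 : f (pts i - pts j) = 0 := by rw [map_sub, hf, sub_self]
  rw [hec, map_smul] at h0
  exact (smul_eq_zero.1 h0).resolve_left hc

theorem Mat_normal [Finite F] (h2 : (2 : F) ≠ 0) (h3 : (3 : F) ≠ 0) :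
    IsNormal (Nat.card F) (r + 1) (Mat F r) := by
  have e : Fin (Nat.card F ^ (r + 1) + 1) ≃ Option (F × (Fin r → F)) :=
    (Finite.equivFinOfCardEq (card_opt F r)).symm
  refine isNormal_of_points (F := F) (q := Nat.card F) (k := r + 1) Mat_rep Mat_simple ?_
    (fun i => pts (e i)) ?_ ?_
  · have h : X ((![1, 0, 0], 0) : Sp F r) := by
      left
      left
      simp
    obtain ⟨e, he, -⟩ := exists_pt h
    exact ⟨e, he⟩
  · intro i j hij
    obtain ⟨x, hx, c, hc, hxc⟩ := exists_pt (X_pts h2 h3 (e.injective.ne hij))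
    exact ⟨x, hx, c, hc, hxc⟩
  · intro x hx
    obtain ⟨i, j, hij, c, hc⟩ := pts_surj h2 h3 hx
    refine ⟨e.symm i, e.symm j, e.symm.injective.ne hij, c, ?_⟩
    rw [e.apply_symm_apply, e.apply_symm_apply]
    exact hc

/-- a subspace containing an element of `C` is, on `C`, the kernel of one functional -/
theorem exists_g (h2 : (2 : F) ≠ 0) (h3 : (3 : F) ≠ 0) (T : Submodule F (Fin 3 → F))
    {c : Fin 3 → F} (hcT : c ∈ T) (hc : C c) :
    ∃ φ : (Fin 3 → F) →ₗ[F] F, (∀ u ∈ T, φ u = 0) ∧ ∀ u, C u → φ u = 0 → u ∈ T := by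
  have hspan : span F {c} ≤ T := by
    rw [span_singleton_le_iff_mem]
    exact hcT
  by_cases h1 : T ≤ span F {c}
  · obtain ⟨α, β, γ, h0, hz⟩ := tang h2 h3 hc
    refine ⟨ev3L α β γ, ?_, ?_⟩
    · intro u hu
      obtain ⟨t, rfl⟩ := mem_span_singleton.1 (h1 hu)
      rw [map_smul]
      have : ev3L α β γ c = 0 := h0
      rw [this, smul_zero]
    · intro u hu hu0
      obtain ⟨t, rfl⟩ := hz u hu hu0
      exact T.smul_mem _ hcT
  by_cases h4 : T = ⊤
  · refine ⟨0, by simp, ?_⟩
    intro u _ _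
    rw [h4]
    trivial
  have hlt : T < ⊤ := lt_top_iff_ne_top.2 h4
  obtain ⟨φ, hφ, hφT⟩ := T.exists_le_ker_of_lt_top hlt
  have hlt2 : span F {c} < T := lt_of_le_not_ge hspan h1
  have hr1 := Submodule.finrank_lt_finrank_of_lt hlt2
  rw [finrank_span_singleton (C_ne_zero hc)] at hr1
  have hker : finrank F (LinearMap.ker φ) < 3 := by
    have h5 : LinearMap.ker φ < ⊤ := by
      rw [lt_top_iff_ne_top]
      intro h
      exact hφ (LinearMap.ker_eq_top.1 h)
    have h6 := Submodule.finrank_lt_finrank_of_lt h5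
    rwa [finrank_top, Module.finrank_fin_fun] at h6
  have heq : T = LinearMap.ker φ := Submodule.eq_of_le_of_finrank_le hφT (by omega)
  refine ⟨φ, fun u hu => hφT hu, fun u _ hu => ?_⟩
  rw [heq]
  exact hu

end Pool.Agent.Helper335.NSS
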