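import Pool.Agent.Helper335.NSS.Set
import Pool.Agent.Helper236.Plane

/-! # Tangents of the cone `C`, and differences outside `C` -/

namespace Pool.Agent.Helper335.NSS

open Set Module Submodule Pool.Agent.Helper236

variable {F : Type} [Field F]

theorem eq_smul_of {u c : Fin 3 → F} (i : Fin 3) (hi : c i ≠ 0)
    (h : ∀ j, u j * c i = u i * c j) : ∃ t : F, u = t • c := by
  refine ⟨u i / c i, ?_⟩
  ext j
  rw [Pi.smul_apply, smul_eq_mul]
  field_simp
  linear_combination h j

/-- every element `c` of `C` is on a plane that meets `C` in multiples of `c` only -/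
theorem tang (h2 : (2 : F) ≠ 0) (h3 : (3 : F) ≠ 0) {c : Fin 3 → F} (hc : C c) :
    ∃ α β γ : F, ev3 α β γ c = 0 ∧ ∀ u, C u → ev3 α β γ u = 0 → ∃ t : F, u = t • c := by
  rcases hc with ⟨hc1, hc2, hc0⟩ | ⟨hc2, hc1, hn2, hn3⟩ | ⟨hc1, hc2, hn2, hn3⟩ | ⟨hc2, hc1, hc0⟩
  · -- the point `(1, 0, 0)`
    refine ⟨0, 1, 2, by simp [ev3, hc1, hc2], ?_⟩
    intro u hu h0
    simp only [ev3, zero_mul, zero_add, one_mul] at h0
    rcases hu with ⟨hu1, hu2, hu0⟩ | ⟨hu2, hu1, hm2, hm3⟩ | ⟨hu1, hu2, hm2, hm3⟩ | ⟨hu2, hu1, hu0⟩
    · refine eq_smul_of 0 hc0 fun j => ?_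
      fin_cases j <;> simp [hu1, hu2, hc1, hc2]
    · exact absurd (by linear_combination h0 - 2 * hu2) hu1
    · have h5 : 2 * u 2 = 0 := by linear_combination h0 - hu1
      exact absurd h5 (mul_ne_zero h2 hu2)
    · exact absurd (by linear_combination h0 - hu1) hu2
  · -- the points `(t, 1, 0)`
    by_cases he : c 0 = c 1
    · refine ⟨c 1, - c 0, -3 * c 1, by simp only [ev3, hc2]; ring, ?_⟩
      intro u hu h0
      simp only [ev3] at h0
      rw [he] at h0 hn2
      have h0' : u 0 - u 1 - 3 * u 2 = 0 := by
        apply mul_left_cancel₀ hc1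
        linear_combination h0
      rcases hu with ⟨hu1, hu2, hu0⟩ | ⟨hu2, hu1, hm2, hm3⟩ | ⟨hu1, hu2, hm2, hm3⟩ |
        ⟨hu2, hu1, hu0⟩
      · exact absurd (by linear_combination h0' + hu1 + 3 * hu2) hu0
      · refine eq_smul_of 1 hc1 fun j => ?_
        fin_cases j
        · simp
          rw [he]
          linear_combination c 1 * h0' + 3 * c 1 * hu2
        · simp
        · simp [hu2, hc2]
      · exact absurd (by linear_combination h0' + hu1) hm3
      · exfalso
        rcases hu0 with hu0 | hu0 | hu0
        · have h5 : 2 * u 2 = 0 := by linear_combination -h0' + hu0 - hu1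
          exact mul_ne_zero h2 hu2 h5
        · exact hu2 (by linear_combination -h0' + hu0 - hu1)
        · have h5 : 3 * u 2 = 0 := by linear_combination -h0' + hu0 - hu1
          exact mul_ne_zero h3 hu2 h5
    · refine ⟨c 1, - c 0, -2 * c 1, by simp only [ev3, hc2]; ring, ?_⟩
      intro u hu h0
      simp only [ev3] at h0
      rcases hu with ⟨hu1, hu2, hu0⟩ | ⟨hu2, hu1, hm2, hm3⟩ | ⟨hu1, hu2, hm2, hm3⟩ |
        ⟨hu2, hu1, hu0⟩
      · rw [hu1, hu2] at h0
        have : c 1 * u 0 = 0 := by linear_combination h0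
        exact absurd this (mul_ne_zero hc1 hu0)
      · refine eq_smul_of 1 hc1 fun j => ?_
        fin_cases j
        · simp
          linear_combination h0 + 2 * c 1 * hu2
        · simp
        · simp [hu2, hc2]
      · exact absurd (mul_left_cancel₀ hc1 (by linear_combination h0 + c 0 * hu1)) hm2
      · exfalso
        rw [hu1] at h0
        rcases hu0 with hu0 | hu0 | hu0
        · rw [hu0] at h0
          exact hn2 (mul_left_cancel₀ hu2 (by linear_combination h0))
        · rw [hu0] at h0
          exact he (mul_left_cancel₀ hu2 (by linear_combination h0))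
        · rw [hu0] at h0
          exact hn3 (mul_left_cancel₀ hu2 (by linear_combination h0))
  · -- the points `(t, 0, 1)`
    by_cases he : c 0 = c 2
    · refine ⟨c 2, -3 * c 2, - c 0, by simp only [ev3, hc1]; ring, ?_⟩
      intro u hu h0
      simp only [ev3] at h0
      rw [he] at h0 hn2
      have h0' : u 0 - 3 * u 1 - u 2 = 0 := by
        apply mul_left_cancel₀ hc2
        linear_combination h0
      rcases hu with ⟨hu1, hu2, hu0⟩ | ⟨hu2, hu1, hm2, hm3⟩ | ⟨hu1, hu2, hm2, hm3⟩ |
        ⟨hu2, hu1, hu0⟩
      · exact absurd (by linear_combination h0' + 3 * hu1 + hu2) hu0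
      · exact absurd (by linear_combination h0' + hu2) hm3
      · refine eq_smul_of 2 hc2 fun j => ?_
        fin_cases j
        · simp
          rw [he]
          linear_combination c 2 * h0' + 3 * c 2 * hu1
        · simp [hu1, hc1]
        · simp
      · exfalso
        rcases hu0 with hu0 | hu0 | hu0
        · have h5 : 2 * u 2 = 0 := by linear_combination h0' - hu0 + 3 * hu1
          exact mul_ne_zero h2 hu2 h5
        · have h5 : 3 * u 2 = 0 := by linear_combination h0' - hu0 + 3 * hu1
          exact mul_ne_zero h3 hu2 h5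
        · exact hu2 (by linear_combination h0' - hu0 + 3 * hu1)
    · refine ⟨c 2, -2 * c 2, - c 0, by simp only [ev3, hc1]; ring, ?_⟩
      intro u hu h0
      simp only [ev3] at h0
      rcases hu with ⟨hu1, hu2, hu0⟩ | ⟨hu2, hu1, hm2, hm3⟩ | ⟨hu1, hu2, hm2, hm3⟩ |
        ⟨hu2, hu1, hu0⟩
      · rw [hu1, hu2] at h0
        have : c 2 * u 0 = 0 := by linear_combination h0
        exact absurd this (mul_ne_zero hc2 hu0)
      · exact absurd (mul_left_cancel₀ hc2 (by linear_combination h0 + c 0 * hu2)) hm2
      · refine eq_smul_of 2 hc2 fun j => ?_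
        fin_cases j
        · simp
          linear_combination h0 + 2 * c 2 * hu1
        · simp [hu1, hc1]
        · simp
      · exfalso
        rw [hu1] at h0
        rcases hu0 with hu0 | hu0 | hu0
        · rw [hu0] at h0
          exact hn2 (mul_left_cancel₀ hu2 (by linear_combination -h0))
        · rw [hu0] at h0
          exact hn3 (mul_left_cancel₀ hu2 (by linear_combination -h0))
        · rw [hu0] at h0
          exact he (mul_left_cancel₀ hu2 (by linear_combination -h0))
  · -- the points `(0, -1, 1)`, `(1, -1, 1)` and `(-1, -1, 1)`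
    rcases hc0 with hc0 | hc0 | hc0
    · refine ⟨1, -2, -2, by simp only [ev3, hc0, hc1]; ring, ?_⟩
      intro u hu h0
      simp only [ev3] at h0
      rcases hu with ⟨hu1, hu2, hu0⟩ | ⟨hu2, hu1, hm2, hm3⟩ | ⟨hu1, hu2, hm2, hm3⟩ |
        ⟨hu2, hu1, hu0⟩
      · exact absurd (by linear_combination h0 + 2 * hu1 + 2 * hu2) hu0
      · exact absurd (by linear_combination h0 + 2 * hu2) hm2
      · exact absurd (by linear_combination h0 + 2 * hu1) hm2
      · have h5 : u 0 = 0 := by linear_combination h0 + 2 * hu1
        refine eq_smul_of 2 hc2 fun j => ?_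
        fin_cases j
        · simp [h5, hc0]
        · simp [hu1, hc1]
        · simp
    · refine ⟨1, -2, -3, by simp only [ev3, hc0, hc1]; ring, ?_⟩
      intro u hu h0
      simp only [ev3] at h0
      rcases hu with ⟨hu1, hu2, hu0⟩ | ⟨hu2, hu1, hm2, hm3⟩ | ⟨hu1, hu2, hm2, hm3⟩ |
        ⟨hu2, hu1, hu0⟩
      · exact absurd (by linear_combination h0 + 2 * hu1 + 3 * hu2) hu0
      · exact absurd (by linear_combination h0 + 3 * hu2) hm2
      · exact absurd (by linear_combination h0 + 2 * hu1) hm3
      · have h5 : u 0 = u 2 := by linear_combination h0 + 2 * hu1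
        refine eq_smul_of 2 hc2 fun j => ?_
        fin_cases j
        · simp [h5, hc0]
        · simp [hu1, hc1]
        · simp
    · refine ⟨1, -3, -2, by simp only [ev3, hc0, hc1]; ring, ?_⟩
      intro u hu h0
      simp only [ev3] at h0
      rcases hu with ⟨hu1, hu2, hu0⟩ | ⟨hu2, hu1, hm2, hm3⟩ | ⟨hu1, hu2, hm2, hm3⟩ |
        ⟨hu2, hu1, hu0⟩
      · exact absurd (by linear_combination h0 + 3 * hu1 + 2 * hu2) hu0
      · exact absurd (by linear_combination h0 + 2 * hu2) hm3
      · exact absurd (by linear_combination h0 + 3 * hu1) hm2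
      · have h5 : u 0 = - u 2 := by linear_combination h0 + 3 * hu1
        refine eq_smul_of 2 hc2 fun j => ?_
        fin_cases j
        · simp [h5, hc0]
        · simp [hu1, hc1]
        · simp

/-- two functionals without a common zero on `C` -/
theorem two_functionals (h2 : (2 : F) ≠ 0) {u : Fin 3 → F} (hu : C u)
    (h0 : u 0 = 0) (h1 : ev3 0 1 2 u = 0) : False := by
  simp only [ev3, zero_mul, zero_add, one_mul] at h1
  rcases hu with ⟨hu1, hu2, hu0⟩ | ⟨hu2, hu1, hm2, hm3⟩ | ⟨hu1, hu2, hm2, hm3⟩ | ⟨hu2, hu1, hu0⟩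
  · exact hu0 h0
  · exact absurd (by linear_combination h1 - 2 * hu2) hu1
  · have h5 : 2 * u 2 = 0 := by linear_combination h1 - hu1
    exact absurd h5 (mul_ne_zero h2 hu2)
  · exact absurd (by linear_combination h1 - hu1) hu2

/-- a field of characteristic at least five has at least five elements -/
theorem exists_notMem_four (h2 : (2 : F) ≠ 0) (h3 : (3 : F) ≠ 0) (a b c d : F) :
    ∃ t : F, t ≠ a ∧ t ≠ b ∧ t ≠ c ∧ t ≠ d := by
  classical
  by_contra hcon
  push Not at hcon
  have h4 : (4 : F) ≠ 0 := by
    have : (4 : F) = 2 * 2 := by norm_num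
    rw [this]
    exact mul_ne_zero h2 h2
  have hsub : ({0, 1, -1, 2, -2} : Finset F) ⊆ {a, b, c, d} := by
    intro t _
    simp only [Finset.mem_insert, Finset.mem_singleton]
    by_contra hno
    push Not at hno
    exact hno.2.2.2 (hcon t hno.1 hno.2.1 hno.2.2.1)
  have h5 := Finset.card_le_card hsub
  have h6 : ({a, b, c, d} : Finset F).card ≤ 4 := Finset.card_le_four
  have h7 : ({0, 1, -1, 2, -2} : Finset F).card = 5 := by
    have k1 : (0 : F) ≠ 1 := zero_ne_one
    have k2 : (0 : F) ≠ -1 := fun h => one_ne_zero (α := F) (by linear_combination h)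
    have k3 : (0 : F) ≠ 2 := fun h => h2 h.symm
    have k4 : (0 : F) ≠ -2 := fun h => h2 (by linear_combination h)
    have k5 : (1 : F) ≠ -1 := fun h => h2 (by linear_combination h)
    have k6 : (1 : F) ≠ 2 := fun h => one_ne_zero (α := F) (by linear_combination -h)
    have k7 : (1 : F) ≠ -2 := fun h => h3 (by linear_combination h)
    have k8 : (-1 : F) ≠ 2 := fun h => h3 (by linear_combination -h)
    have k9 : (-1 : F) ≠ -2 := fun h => one_ne_zero (α := F) (by linear_combination h)
    have k10 : (2 : F) ≠ -2 := fun h => h4 (by linear_combination h)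
    rw [Finset.card_insert_of_notMem, Finset.card_insert_of_notMem,
      Finset.card_insert_of_notMem, Finset.card_insert_of_notMem, Finset.card_singleton]
    · simpa using k10
    · simp only [Finset.mem_insert, Finset.mem_singleton, not_or]
      exact ⟨k8, k9⟩
    · simp only [Finset.mem_insert, Finset.mem_singleton, not_or]
      exact ⟨k5, k6, k7⟩
    · simp only [Finset.mem_insert, Finset.mem_singleton, not_or]
      exact ⟨k1, k2, k3, k4⟩
  omega

theorem not_C_of_ne {u : Fin 3 → F} (h1 : u 1 ≠ 0) (h2 : u 2 ≠ 0)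
    (h : u 1 = - u 2 → u 0 ≠ 0 ∧ u 0 ≠ u 2 ∧ u 0 ≠ - u 2) : ¬ C u := by
  rintro (⟨h, -, -⟩ | ⟨h, -, -, -⟩ | ⟨h, -, -, -⟩ | ⟨h3, h4, h5⟩)
  · exact h1 h
  · exact h2 h
  · exact h1 h
  · obtain ⟨k1, k2, k3⟩ := h h4
    rcases h5 with h5 | h5 | h5
    · exact k1 h5
    · exact k2 h5
    · exact k3 h5

/-- for every nonzero functional there are two normalised elements of `C` whose difference is
not in `C` -/
theorem nomod3 (h2 : (2 : F) ≠ 0) (h3 : (3 : F) ≠ 0) {a b c : F}
    (habc : ¬ (a = 0 ∧ b = 0 ∧ c = 0)) :
    ∃ u w, C u ∧ C w ∧ ev3 a b c u = 1 ∧ ev3 a b c w = 1 ∧ u ≠ w ∧ ¬ C (u - w) := by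
  have h4 : (4 : F) ≠ 0 := by
    have : (4 : F) = 2 * 2 := by norm_num
    rw [this]
    exact mul_ne_zero h2 h2
  have e12 : (1 : F) ≠ 2 := fun h => one_ne_zero (α := F) (by linear_combination -h)
  have e13 : (1 : F) ≠ 3 := fun h => h2 (by linear_combination -h)
  have em2 : (-1 : F) ≠ 2 := fun h => h3 (by linear_combination -h)
  have em3 : (-1 : F) ≠ 3 := fun h => h4 (by linear_combination -h)
  by_cases ha : a = 0
  · subst ha
    by_cases hb : b = 0
    · subst hb
      have hc : c ≠ 0 := fun h => habc ⟨rfl, rfl, h⟩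
      have hc' : c⁻¹ ≠ 0 := inv_ne_zero hc
      refine ⟨c⁻¹ • ![1, 0, 1], c⁻¹ • ![-1, -1, 1], C_smul hc' ?_, C_smul hc' ?_, ?_, ?_, ?_, ?_⟩
      · right; right; left
        simp [e12, e13]
      · right; right; right
        simp
      · simp [ev3, hc]
      · simp [ev3, hc]
      · intro h
        have := congrFun h 1
        simp [hc] at this
      · rw [← smul_sub, C_smul_iff hc']
        rintro (⟨h, -, -⟩ | ⟨-, -, h, -⟩ | ⟨h, -, -, -⟩ | ⟨h, -, -⟩)
        · simp at h
        · apply h
          simp
          norm_num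
        · simp at h
        · simp at h
    · have hb' : b⁻¹ ≠ 0 := inv_ne_zero hb
      by_cases hc : c = 0
      · subst hc
        refine ⟨b⁻¹ • ![1, 1, 0], b⁻¹ • ![-1, 1, -1], C_smul hb' ?_, C_smul hb' ?_, ?_, ?_, ?_,
          ?_⟩
        · right; left
          simp [e12, e13]
        · right; right; right
          simp
        · simp [ev3, hb]
        · simp [ev3, hb]
        · intro h
          have := congrFun h 2
          simp [hb] at this
        · rw [← smul_sub, C_smul_iff hb']
          rintro (⟨-, h, -⟩ | ⟨h, -, -, -⟩ | ⟨-, -, h, -⟩ | ⟨-, h, -⟩)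
          · simp at h
          · simp at h
          · apply h
            simp
            norm_num
          · simp at h
      · have hc' : c⁻¹ ≠ 0 := inv_ne_zero hc
        refine ⟨b⁻¹ • ![1, 1, 0], c⁻¹ • ![-1, 0, 1], C_smul hb' ?_, C_smul hc' ?_, ?_, ?_, ?_,
          ?_⟩
        · right; left
          simp [e12, e13]
        · right; right; left
          simp [em2, em3]
        · simp [ev3, hb]
        · simp [ev3, hc]
        · intro h
          have := congrFun h 1
          simp [hb] at this
        · apply not_C_of_ne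
          · simp [hb]
          · simp [hc]
          · intro h
            have h' : b⁻¹ = c⁻¹ := by simpa using h
            rw [h']
            simp
            refine ⟨?_, ?_, ?_⟩
            · intro h5
              apply mul_ne_zero h2 hc'
              linear_combination h5
            · intro h5
              apply mul_ne_zero h3 hc'
              linear_combination h5
            · intro h5
              exact hc h5
  · -- the general case
    obtain ⟨t', ht1, ht2, ht3, -⟩ := exists_notMem_four h2 h3 2 3 (-(c / a)) 0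
    obtain ⟨t, hs1, hs2, hs3, hs4⟩ := exists_notMem_four h2 h3 2 3 (-(b / a)) (t' + c / a - b / a)
    have hd1 : a * t + b ≠ 0 := by
      intro h
      apply hs3
      field_simp
      linear_combination h
    have hd2 : a * t' + c ≠ 0 := by
      intro h
      apply ht3
      field_simp
      linear_combination h
    refine ⟨(a * t + b)⁻¹ • ![t, 1, 0], (a * t' + c)⁻¹ • ![t', 0, 1],
      C_smul (inv_ne_zero hd1) ?_, C_smul (inv_ne_zero hd2) ?_, ?_, ?_, ?_, ?_⟩
    · right; left
      simp [hs1, hs2]
    · right; right; left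
      simp [ht1, ht2]
    · simp [ev3]
      field_simp
    · simp [ev3]
      field_simp
    · intro h
      have := congrFun h 1
      simp [hd1] at this
    · apply not_C_of_ne
      · simp [hd1]
      · simp [hd2]
      · intro h
        exfalso
        have h' : (a * t + b)⁻¹ = (a * t' + c)⁻¹ := by simpa using h
        have h'' := inv_injective h'
        apply hs4
        field_simp
        linear_combination h''

end Pool.Agent.Helper335.NSS
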